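import Pool.Agent.SZG.StmtsF

/-!
# Row TDF of squad SZG: the theta series is holomorphic in `z`
-/

namespace Pool.Agent.SZG.H94

open scoped BigOperators
open Pool.Agent.THS Pool.Agent.SZG

/-- the linear part of the exponent -/
noncomputable def lin {g : ℕ} (s : Fin g → ℝ) (n : Fin g → ℤ) : (Fin g → ℂ) →L[ℂ] ℂ :=
  ∑ i, (2 * Real.pi * Complex.I * ((n i : ℂ) + (s i : ℂ))) •
    ContinuousLinearMap.proj (R := ℂ) (φ := fun _ : Fin g => ℂ) i

lemma lin_apply {g : ℕ} (s : Fin g → ℝ) (n : Fin g → ℤ) (z : Fin g → ℂ) :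
    lin s n z = 2 * Real.pi * Complex.I * ∑ i, ((n i : ℂ) + (s i : ℂ)) * z i := by
  unfold lin
  rw [ContinuousLinearMap.sum_apply, Finset.mul_sum]
  apply Finset.sum_congr rfl
  intro i _
  rw [ContinuousLinearMap.smul_apply, ContinuousLinearMap.proj_apply, smul_eq_mul, mul_assoc]

lemma norm_lin_le {g : ℕ} (s : Fin g → ℝ) (n : Fin g → ℤ) :
    ‖lin s n‖ ≤ 2 * Real.pi * ∑ i, |(n i : ℝ) + s i| := by
  have hpi := Real.pi_pos
  apply ContinuousLinearMap.opNorm_le_bound _ (by positivity)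
  intro z
  rw [lin_apply, norm_mul]
  have h1 : ‖(2 * Real.pi * Complex.I : ℂ)‖ = 2 * Real.pi := by
    rw [norm_mul, norm_mul, Complex.norm_I, Complex.norm_real]
    simp [abs_of_pos hpi]
  rw [h1, mul_assoc (2 * Real.pi) (∑ i, |(n i : ℝ) + s i|)]
  apply mul_le_mul_of_nonneg_left _ (by positivity)
  rw [Finset.sum_mul]
  refine (norm_sum_le _ _).trans ?_
  apply Finset.sum_le_sum
  intro i _
  rw [norm_mul]
  have h2 : ‖((n i : ℂ) + (s i : ℂ))‖ = |(n i : ℝ) + s i| := by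
    have : ((n i : ℂ) + (s i : ℂ)) = (((n i : ℝ) + s i : ℝ) : ℂ) := by push_cast; rfl
    rw [this, Complex.norm_real, Real.norm_eq_abs]
  rw [h2]
  exact mul_le_mul_of_nonneg_left (norm_le_pi_norm z i) (abs_nonneg _)

lemma tht_eq {g : ℕ} (τ : Matrix (Fin g) (Fin g) ℂ) (s : Fin g → ℝ) (z : Fin g → ℂ)
    (n : Fin g → ℤ) : tht τ s z n = Complex.exp (Real.pi * Complex.I *
      (∑ i, ∑ j, ((n i : ℂ) + (s i : ℂ)) * τ i j * ((n j : ℂ) + (s j : ℂ))) + lin s n z) := by
  unfold tht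
  rw [lin_apply]

lemma hasFDerivAt_tht {g : ℕ} (τ : Matrix (Fin g) (Fin g) ℂ) (s : Fin g → ℝ) (n : Fin g → ℤ)
    (z : Fin g → ℂ) : HasFDerivAt (fun z => tht τ s z n) (tht τ s z n • lin s n) z := by
  have h1 : HasFDerivAt (fun z => Real.pi * Complex.I *
      (∑ i, ∑ j, ((n i : ℂ) + (s i : ℂ)) * τ i j * ((n j : ℂ) + (s j : ℂ))) + lin s n z)
      (lin s n) z := ((lin s n).hasFDerivAt).const_add _
  have h2 := h1.cexp
  rw [← tht_eq] at h2
  have h3 : (fun z => tht τ s z n) = fun z => Complex.exp (Real.pi * Complex.I *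
      (∑ i, ∑ j, ((n i : ℂ) + (s i : ℂ)) * τ i j * ((n j : ℂ) + (s j : ℂ))) + lin s n z) := by
    funext z
    exact tht_eq τ s z n
  rw [h3]
  exact h2

/-- shifting one coordinate -/
lemma tht_shift {g : ℕ} (τ : Matrix (Fin g) (Fin g) ℂ) (s : Fin g → ℝ) (z : Fin g → ℂ)
    (n : Fin g → ℤ) (i : Fin g) (δ : ℂ) : tht τ s (z + Pi.single i δ) n
      = tht τ s z n * Complex.exp (2 * Real.pi * Complex.I * (((n i : ℂ) + (s i : ℂ)) * δ)) := by
  rw [tht_eq, tht_eq, ← Complex.exp_add, map_add, add_assoc]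
  congr 2
  rw [lin_apply s n (Pi.single i δ)]
  congr 2
  rw [Finset.sum_eq_single i]
  · rw [Pi.single_eq_same]
  · intro j _ hj
    rw [Pi.single_eq_of_ne hj, mul_zero]
  · intro h
    exact absurd (Finset.mem_univ i) h

lemma norm_shift {g : ℕ} (τ : Matrix (Fin g) (Fin g) ℂ) (s : Fin g → ℝ) (z : Fin g → ℂ)
    (n : Fin g → ℤ) (i : Fin g) (r : ℝ) : ‖tht τ s (z + Pi.single i (Complex.I * (r : ℂ))) n‖
      = ‖tht τ s z n‖ * Real.exp (-(2 * Real.pi * (((n i : ℝ) + s i) * r))) := by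
  rw [tht_shift, norm_mul, Complex.norm_exp]
  congr 2
  have : 2 * (Real.pi : ℂ) * Complex.I * (((n i : ℂ) + (s i : ℂ)) * (Complex.I * (r : ℂ)))
      = ((-(2 * Real.pi * (((n i : ℝ) + s i) * r)) : ℝ) : ℂ) := by
    have hI : Complex.I * Complex.I = -1 := Complex.I_mul_I
    push_cast
    linear_combination (2 * (Real.pi : ℂ) * ((n i : ℂ) + (s i : ℂ)) * (r : ℂ)) * hI
  rw [this, Complex.ofReal_re]

lemma abs_le_exp (x : ℝ) : |x| ≤ Real.exp x + Real.exp (-x) := by
  rcases abs_cases x with ⟨h, _⟩ | ⟨h, _⟩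
  · rw [h]
    have := Real.add_one_le_exp x
    have := Real.exp_pos (-x)
    linarith
  · rw [h]
    have := Real.add_one_le_exp (-x)
    have := Real.exp_pos x
    linarith

theorem tdf (hTBD : TbdStatement) : TdfStmt := by
  intro g τ hτ s z0
  have hpi := Real.pi_pos
  set R0 : ℝ := ‖z0‖ + 1 with hR0
  set R : ℝ := R0 + 1 + ∑ i, |s i| with hR
  have hsum0 : 0 ≤ ∑ i, |s i| := Finset.sum_nonneg fun i _ => abs_nonneg _
  have hR00 : 0 < R0 := by positivity
  obtain ⟨u, hu, hb⟩ := hTBD g τ hτ R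
  have hs : ∀ i, |s i| ≤ R := by
    intro i
    have : |s i| ≤ ∑ i, |s i| := Finset.single_le_sum (f := fun i => |s i|)
      (fun i _ => abs_nonneg _) (Finset.mem_univ i)
    linarith
  have hz1 : ∀ z : Fin g → ℂ, ‖z‖ ≤ R0 + 1 → ∀ n, ‖tht τ s z n‖ ≤ u n := by
    intro z hz
    apply hb s z hs
    intro i
    have := norm_le_pi_norm z i
    linarith
  have hder : ∀ (n : Fin g → ℤ) (z : Fin g → ℂ), z ∈ Metric.ball (0 : Fin g → ℂ) R0 →
      ‖tht τ s z n • lin s n‖ ≤ (4 * Real.pi * g) * u n := by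
    intro n z hz
    rw [mem_ball_zero_iff] at hz
    rw [norm_smul]
    have h1 : ∀ i : Fin g, ‖tht τ s z n‖ * |(n i : ℝ) + s i| ≤ 2 * u n := by
      intro i
      have hδ : ‖(Pi.single i (Complex.I * ((1 / (2 * Real.pi) : ℝ) : ℂ)) : Fin g → ℂ)‖ ≤ 1 := by
        rw [Pi.norm_single, norm_mul, Complex.norm_I, one_mul, Complex.norm_real,
          Real.norm_eq_abs, abs_of_pos (by positivity)]
        rw [div_le_one (by positivity)]
        linarith [Real.pi_gt_three]
      have hδ' : ‖(Pi.single i (Complex.I * ((-(1 / (2 * Real.pi)) : ℝ) : ℂ)) : Fin g → ℂ)‖ ≤ 1 := by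
        rw [Pi.norm_single, norm_mul, Complex.norm_I, one_mul, Complex.norm_real,
          Real.norm_eq_abs, abs_neg, abs_of_pos (by positivity)]
        rw [div_le_one (by positivity)]
        linarith [Real.pi_gt_three]
      have h2 := hz1 (z + Pi.single i (Complex.I * ((1 / (2 * Real.pi) : ℝ) : ℂ)))
        ((norm_add_le _ _).trans (by linarith)) n
      have h3 := hz1 (z + Pi.single i (Complex.I * ((-(1 / (2 * Real.pi)) : ℝ) : ℂ)))
        ((norm_add_le _ _).trans (by linarith)) n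
      rw [norm_shift] at h2 h3
      have e2 : -(2 * Real.pi * (((n i : ℝ) + s i) * (1 / (2 * Real.pi)))) = -((n i : ℝ) + s i) := by
        field_simp
      have e3 : -(2 * Real.pi * (((n i : ℝ) + s i) * (-(1 / (2 * Real.pi))))) = (n i : ℝ) + s i := by
        field_simp
      rw [e2] at h2
      rw [e3] at h3
      have h4 := mul_le_mul_of_nonneg_left (abs_le_exp ((n i : ℝ) + s i)) (norm_nonneg (tht τ s z n))
      rw [mul_add] at h4
      linarith
    calc ‖tht τ s z n‖ * ‖lin s n‖ ≤ ‖tht τ s z n‖ * (2 * Real.pi * ∑ i, |(n i : ℝ) + s i|) :=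
          mul_le_mul_of_nonneg_left (norm_lin_le s n) (norm_nonneg _)
      _ = 2 * Real.pi * ∑ i, ‖tht τ s z n‖ * |(n i : ℝ) + s i| := by
          rw [← Finset.mul_sum]; ring
      _ ≤ 2 * Real.pi * ∑ _i : Fin g, 2 * u n := by
          apply mul_le_mul_of_nonneg_left _ (by positivity)
          exact Finset.sum_le_sum fun i _ => h1 i
      _ = (4 * Real.pi * g) * u n := by
          rw [Finset.sum_const, Finset.card_univ, Fintype.card_fin, nsmul_eq_mul]; ring
  have hz0 : z0 ∈ Metric.ball (0 : Fin g → ℂ) R0 := by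
    rw [mem_ball_zero_iff]; linarith
  have hpre : IsPreconnected (Metric.ball (0 : Fin g → ℂ) R0) :=
    (convex_ball (0 : Fin g → ℂ) R0).isPreconnected
  have hmain := hasFDerivAt_tsum_of_isPreconnected (𝕜 := ℂ) (hu.mul_left (4 * Real.pi * g))
    Metric.isOpen_ball hpre (fun n z _ => hasFDerivAt_tht τ s n z) hder hz0
    (Summable.of_norm_bounded hu (hz1 z0 (by linarith))) hz0
  exact hmain.differentiableAt

end Pool.Agent.SZG.H94
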