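import Pool.Agent.SZG.StmtsW

/-!
# Row WXC of squad SZG: consequences of `WX`
-/

namespace Pool.Agent.SZG.H94

open scoped BigOperators
open Pool.Agent.THS Pool.Agent.SZG

theorem wxc : WxcStmt := by
  intro K I _ _ v L0 c e W X h
  have X0 : ∀ k, X 0 k = 1 := by
    intro k
    have h1 := h.xadd 0 0 k
    rw [add_zero] at h1
    have h2 := h.xpos 0 k
    exact (mul_left_cancel₀ h2.ne' (by rw [mul_one]; exact h1)).symm
  have W0 : W 0 = 1 := by
    have h1 := h.add 0 0
    rw [add_zero, X0, mul_one] at h1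
    have h2 := h.pos 0
    exact (mul_left_cancel₀ h2.ne' (by rw [mul_one]; exact h1)).symm
  have Xneg : ∀ i j, X (-i) j = (X i j)⁻¹ := by
    intro i j
    have h1 := h.xadd (-i) i j
    rw [neg_add_cancel, X0] at h1
    exact eq_inv_of_mul_eq_one_left h1.symm
  have Xz : ∀ (u : ℤ) (i j : I), X (u • i) j = X i j ^ u := by
    intro u i j
    induction u using Int.induction_on with
    | zero => rw [zero_smul, X0, zpow_zero]
    | succ n ih => rw [add_smul, one_smul, h.xadd, ih, zpow_add_one₀ (h.xpos i j).ne']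
    | pred n ih =>
      rw [sub_smul, one_smul, sub_eq_add_neg, h.xadd, ih, Xneg, zpow_sub_one₀ (h.xpos i j).ne']
  have Xz' : ∀ (u : ℤ) (i j : I), X i (u • j) = X i j ^ u := by
    intro u i j
    rw [h.xsymm, Xz, h.xsymm]
  have Xneg' : ∀ i j, X i (-j) = (X i j)⁻¹ := by
    intro i j
    rw [h.xsymm, Xneg, h.xsymm]
  have Xii : ∀ i, X i i = W i ^ 2 := by
    intro i
    have h1 := h.add i (-i)
    rw [add_neg_cancel, W0, h.neg, Xneg'] at h1
    have h2 := (h.xpos i i).ne'
    have h3 : X i i = X i i * (W i * W i * (X i i)⁻¹) := by rw [← h1, mul_one]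
    rw [h3]
    field_simp
  refine ⟨W0, Xii, Xneg, fun u i j => ⟨Xz u i j, Xz' u i j⟩, ?_, ?_, ?_, ?_⟩
  · intro u i
    have hW := (h.pos i).ne'
    induction u using Int.induction_on with
    | zero => rw [zero_smul, W0]; norm_num
    | succ n ih =>
      rw [add_smul, one_smul, h.add, ih, Xz, Xii]
      rw [← zpow_natCast (W i) 2, ← zpow_mul]
      nth_rewrite 2 [← zpow_one (W i)]
      rw [← zpow_add₀ hW, ← zpow_add₀ hW]
      congr 1
      push_cast
      ring
    | pred n ih =>
      rw [sub_smul, one_smul, sub_eq_add_neg, h.add, ih, h.neg, Xz, Xneg', Xii]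
      rw [← zpow_natCast (W i) 2, ← zpow_neg, ← zpow_mul]
      nth_rewrite 2 [← zpow_one (W i)]
      rw [← zpow_add₀ hW, ← zpow_add₀ hW]
      congr 1
      push_cast
      ring
  · intro i j
    rw [sub_eq_add_neg, h.add, h.add, h.neg, Xneg']
    have := (h.xpos i j).ne'
    field_simp
  · intro i j
    rw [h.add, Xneg']
    have := (h.xpos i j).ne'
    field_simp
  · intro m hm i
    rw [h.add, h.xsymm i m, ← h.ce m hm, ← h.ee m hm]
    rw [h.ce m hm, h.ee m hm]
    ring

end Pool.Agent.SZG.H94
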